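import Pool.Agent.Q91.TF.PSI

open Set MeasureTheory Filter Topology

namespace Pool.Agent.Q91.TF

open Pool.Agent.Q81.TF

theorem rpow_neg3 {m : ℝ} (hm : 0 < m) : 2 * (m / 2) ^ (-(3 : ℝ)) = 16 * m ^ (-(3 : ℝ)) := by
  have h : ∀ v : ℝ, 0 < v → v ^ (-(3 : ℝ)) = (v ^ 3)⁻¹ := by
    intro v hv
    rw [Real.rpow_neg hv.le]
    congr 1
    exact_mod_cast Real.rpow_natCast v 3
  rw [h m hm, h (m / 2) (by positivity)]
  field_simp
  norm_num

theorem t_BIG (hF : S_FWD) (hCr : S_CRIT) (hZ : S_ZCUT) (hB : S_BIG1) : S_BIG := by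
  intro n x0 x1 t1 t2 W D s g h1 h2 h3 ht S h9 cs
  have F := S.F
  have hDW := S.DW
  have ht1m : t1 ∈ Icc t1 t2 := ⟨le_rfl, F.htt.le⟩
  have ht2m : t2 ∈ Icc t1 t2 := ⟨F.htt.le, le_rfl⟩
  have hx1m : x1 ∈ Icc x0 x1 := ⟨F.hx.le, le_rfl⟩
  have hanti : ∀ τ ∈ Icc t1 t2, ∀ σ ∈ Icc t1 t2, τ ≤ σ → s σ ≤ s τ := by
    intro τ hτ σ hσ hle
    rcases eq_or_lt_of_le hle with h | h
    · rw [h]
    have F' := F.restrict hx1m hτ.1 h hσ.2
      (fun ρ hρ => (F.s_mem ρ ⟨hτ.1.trans hρ.1, hρ.2.trans hσ.2⟩).2)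
    exact (F'.mono_and_mass S.J hDW S.hn (S.fin.mono_set (inter_subset_inter_right _
      (prod_mono (Subset.refl _) (Ioc_subset_Ioc hτ.1 hσ.2))))).1
  have h21 := hanti t1 ht1m t2 ht2m F.htt.le
  by_contra hne
  have hlt : s t2 < s t1 := lt_of_le_of_ne h21 (fun h => hne h.symm)
  obtain ⟨η, hη⟩ : ∃ η, η = (s t1 - s t2) / 3 := ⟨_, rfl⟩
  have hη0 : 0 < η := by rw [hη]; linarith
  obtain ⟨ts, hts, hts'⟩ := intermediate_value_Icc' F.htt.le cs
    (show s t1 - 2 * η ∈ Icc (s t2) (s t1) from ⟨by linarith, by linarith⟩)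
  have hts'' : s ts = s t1 - 2 * η := hts'
  have hts2 : ts < t2 := by
    apply lt_of_le_of_ne hts.2
    intro h
    rw [h] at hts''
    linarith
  obtain ⟨xb, hxb⟩ : ∃ xb, xb = s t1 - η := ⟨_, rfl⟩
  have hxbm : xb ∈ Icc x0 x1 := by
    have e1 := (F.s_mem t1 ht1m).2
    have e2 := (F.s_mem ts hts).1
    constructor <;> linarith
  have hsx : ∀ τ ∈ Icc ts t2, s τ < xb := fun τ hτ => by
    have := hanti ts hts τ ⟨hts.1.trans hτ.1, hτ.2⟩ hτ.1
    rw [hts''] at this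
    linarith
  have F' := F.restrict hxbm hts.1 hts2 le_rfl hsx
  have hfin' : IntegrableOn (Fd n g h3) (D ∩ Ioc x0 xb ×ˢ Ioc ts t2) :=
    S.fin.mono_set (inter_subset_inter_right _ (prod_mono (Ioc_subset_Ioc_right hxbm.2)
      (Ioc_subset_Ioc_left hts.1)))
  have S' : Sit n x0 xb ts t2 W D s g h1 h2 h3 ht := ⟨F', S.J, hDW, S.hn, hfin'⟩
  obtain ⟨M, c, Pm, Gm, Hm, Bd⟩ := F'.exists_bds S.J hDW
  obtain ⟨b0, hb0, hfwd⟩ := hF n x0 x1 t1 t2 W D s g h1 h2 h3 ht S (η / 2) (by linarith)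
  obtain ⟨K0, hK0, hK⟩ := hB n M c Pm Gm b0 h9 Bd.hM1 Bd.hc hb0
  have hFd : ∀ z ∈ D, 0 ≤ Fd n g h3 z := fun z hz =>
    mul_nonneg (Real.rpow_nonneg (F.g_pos z hz).le _) (sq_nonneg _)
  have hE0 : ∀ τ, 0 ≤ eV n x0 xb D univ g h3 τ := fun τ =>
    eV_nonneg (n := n) (x0 := x0) (x1 := xb) hFd univ τ
  have key : s ts = s t2 := by
    apply hCr n x0 xb ts t2 W D s g h1 h2 h3 ht S'
      (fun τ => K0 * (1 + eV n x0 xb D univ g h3 τ))
    · intro τ
      exact mul_nonneg hK0 (by linarith [hE0 τ])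
    · have e1 : IntegrableOn (fun _ : ℝ => (1 : ℝ)) (Ioc ts t2) :=
        integrableOn_const (by simp)
      have e2 := tail_integrable F.D_open.measurableSet MeasurableSet.univ hfin'
      exact (e1.add e2).const_mul K0
    · filter_upwards [tail_ae F.D_open.measurableSet hfin', ae_restrict_mem measurableSet_Ioc]
        with τ hτi hτm
      have hτ : τ ∈ Icc ts t2 := ⟨hτm.1.le, hτm.2⟩
      have hτ' : τ ∈ Icc t1 t2 := ⟨hts.1.trans hτ.1, hτ.2⟩
      have P := F'.prof S.J hτ hτi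
      have hst := F'.s_mem τ hτ
      have hxm : ∀ x ∈ Ioc (s τ) xb, x ∈ Icc x0 xb := fun x hx => ⟨hst.1.le.trans hx.1.le, hx.2⟩
      have hmpos : ∀ x ∈ Ioc (s τ) xb, 0 < mF x0 xb ts t2 g (x, τ) := fun x hx =>
        F'.mF_pos (hxm x hx) hτ hx.1
      have hmeq : ∀ x ∈ Icc x0 xb, mF x0 xb ts t2 g (x, τ) = mF x0 x1 t1 t2 g (x, τ) :=
        fun x hx => by
          rw [F'.mF_int hx hτ, F.mF_int ⟨hx.1, hx.2.trans hxbm.2⟩ hτ']
      have hneg : ∀ x ∈ Ioc (s τ) xb, mF x0 xb ts t2 g (x, τ) ≤ b0 →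
          ∫ y in x..xb, g (y, τ) ^ (2 - n) ≤ 16 * mF x0 xb ts t2 g (x, τ) ^ (-(3 : ℝ)) := by
        intro x hx hle
        have hm0 := hmpos x hx
        obtain ⟨m, hm⟩ : ∃ m, m = mF x0 xb ts t2 g (x, τ) := ⟨_, rfl⟩
        rw [← hm] at hm0 hle ⊢
        obtain ⟨ζ, ζ1, Z⟩ := hZ (m / 2) (by positivity)
        have e1 := hfwd (m / 2) (by positivity) (by linarith) ζ ζ1 Z τ hτ' xb hxbm (by linarith)
        rw [rpow_neg3 hm0] at e1
        refine le_trans ?_ e1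
        have cK := slice_c (kL_cont F hDW (show 0 < m / 2 by positivity) Z) hτ'
        have e2 : ∫ y in x..xb, g (y, τ) ^ (2 - n) =
            ∫ y in x..xb, kL n x0 x1 t1 t2 g ζ (y, τ) := by
          apply intervalIntegral.integral_congr
          intro y hy
          rw [uIcc_of_le hx.2] at hy
          have e3 : mF x0 xb ts t2 g (x, τ) ≤ mF x0 xb ts t2 g (y, τ) :=
            F'.mF_mono (τ := τ) (hxm x hx).1 hy.1
          have e4 := hmeq y ⟨(hxm x hx).1.trans hy.1, hy.2⟩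
          have e5 : ζ (mF x0 x1 t1 t2 g (y, τ)) = 1 := by
            apply (Z.hi _ _).1
            rw [← e4]
            rw [← hm] at e3
            linarith
          simp only [kL, e5, one_mul]
        rw [e2]
        unfold RL
        simp only
        apply intervalIntegral.integral_mono_interval (hxm x hx).1 hx.2 le_rfl
        · rw [EventuallyLE, ae_restrict_iff' measurableSet_Ioc]
          exact Eventually.of_forall (fun y hy => mul_nonneg (Z.range _).1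
            (Real.rpow_nonneg (F.g_nonneg (F.R_sub y ⟨hy.1.le, hy.2.trans hxbm.2⟩ τ hτ')) _))
        · apply ContinuousOn.intervalIntegrable
          rw [uIcc_of_le hxbm.1]
          exact cK.mono (Icc_subset_Icc_right hxbm.2)
      have hb := hK (s τ) xb (eV n x0 xb D univ g h3 τ) (fun x => g (x, τ)) (fun x => h1 (x, τ))
        (fun x => h2 (x, τ)) (fun x => h3 (x, τ)) (fun x => mF x0 xb ts t2 g (x, τ)) P
        (fun x hx => Bd.hM x (hxm x hx) τ hτ) (Bd.hca τ hτ) (Bd.hPm τ hτ) (Bd.hGm τ hτ)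
        (fun x hx => F'.label_dx (hxm x hx) hτ) hmpos hneg
      intro x hx hsx'
      have e1 := hb x ⟨hsx', hx.2⟩
      refine e1.trans ?_
      have e2 := hmpos x ⟨hsx', hx.2⟩
      have e3 : mF x0 xb ts t2 g (x, τ) ≤
          (1 + |Real.log (mF x0 xb ts t2 g (x, τ))|) * mF x0 xb ts t2 g (x, τ) := by
        nlinarith [mul_nonneg (abs_nonneg (Real.log (mF x0 xb ts t2 g (x, τ)))) e2.le]
      exact mul_le_mul_of_nonneg_left e3 (mul_nonneg hK0 (by linarith [hE0 τ]))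
  rw [hts''] at key
  linarith

end Pool.Agent.Q91.TF
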