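import Pool.Agent.Q81.TF.Stm

open Set MeasureTheory Filter Topology

namespace Pool.Agent.Q91.TF

open Pool.Agent.Q81.TF

/-- the bound of `Y` -/
theorem Yb_le {n C E b H Pm : ℝ} (hn : 3 ≤ n) (hC : 1 ≤ C) (hb : 0 < b) (hb1 : b ≤ 1)
    (hH : 0 ≤ H) (hH1 : H ≤ 1) (hE : 0 ≤ E) :
    Yb n C E b H Pm * b ^ 2 ≤ C * ((1 + E) * (3 + Pm ^ 2)) := by
  have e1 : Real.sqrt (b ^ (-(3 : ℝ))) * b ^ 2 ≤ 1 := by
    have h1 : b ^ (-(3 : ℝ)) = (b ^ 3)⁻¹ := by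
      rw [Real.rpow_neg hb.le]
      congr 1
      exact_mod_cast Real.rpow_natCast b 3
    rw [h1]
    have h2 : Real.sqrt ((b ^ 3)⁻¹) ≤ (b ^ 2)⁻¹ := by
      apply Real.sqrt_le_iff.2
      refine ⟨by positivity, ?_⟩
      have h3 : ((b ^ 2)⁻¹) ^ 2 = (b ^ 4)⁻¹ := by
        rw [inv_pow, ← pow_mul]
      rw [h3]
      apply inv_anti₀ (by positivity)
      exact pow_le_pow_of_le_one hb.le hb1 (by norm_num)
    calc Real.sqrt ((b ^ 3)⁻¹) * b ^ 2 ≤ (b ^ 2)⁻¹ * b ^ 2 :=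
          mul_le_mul_of_nonneg_right h2 (by positivity)
      _ = 1 := inv_mul_cancel₀ (by positivity)
  have e2 : b ^ (-(2 * (n - 3) / (n + 7))) * b ^ 2 ≤ 1 := by
    have h1 : b ^ (-(2 * (n - 3) / (n + 7))) ≤ b ^ (-(2 : ℝ)) := by
      apply Real.rpow_le_rpow_of_exponent_ge hb hb1
      have h2 : 2 * (n - 3) / (n + 7) ≤ 2 := by
        rw [div_le_iff₀ (by linarith)]
        linarith
      linarith
    have h3 : b ^ (-(2 : ℝ)) = (b ^ 2)⁻¹ := by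
      rw [Real.rpow_neg hb.le]
      congr 1
      exact_mod_cast Real.rpow_natCast b 2
    rw [h3] at h1
    calc b ^ (-(2 * (n - 3) / (n + 7))) * b ^ 2 ≤ (b ^ 2)⁻¹ * b ^ 2 :=
          mul_le_mul_of_nonneg_right h1 (by positivity)
      _ = 1 := inv_mul_cancel₀ (by positivity)
  have e3 : H ^ 4 / b ^ 2 * b ^ 2 ≤ 1 := by
    rw [div_mul_cancel₀ _ (by positivity)]
    exact pow_le_one₀ hH hH1
  have e4 : Pm ^ 2 * b ^ 2 ≤ Pm ^ 2 := by
    have h1 : b ^ 2 ≤ 1 := pow_le_one₀ hb.le hb1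
    nlinarith [sq_nonneg Pm]
  have e5 : Yb n C E b H Pm * b ^ 2 = C * (H ^ 4 / b ^ 2 * b ^ 2 +
      (1 + E) * (Real.sqrt (b ^ (-(3 : ℝ))) * b ^ 2 + b ^ (-(2 * (n - 3) / (n + 7))) * b ^ 2) +
      Pm ^ 2 * b ^ 2) := by
    unfold Yb
    ring
  rw [e5]
  apply mul_le_mul_of_nonneg_left _ (by linarith)
  have e6 : (1 + E) * (Real.sqrt (b ^ (-(3 : ℝ))) * b ^ 2 +
      b ^ (-(2 * (n - 3) / (n + 7))) * b ^ 2) ≤ (1 + E) * 2 :=
    mul_le_mul_of_nonneg_left (by linarith) (by linarith)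
  nlinarith [sq_nonneg Pm, mul_nonneg hE (sq_nonneg Pm)]

theorem t_EPS : S_EPS := by
  intro n C B L Pm θ hn hC hB hL hθ
  obtain ⟨A, hA⟩ : ∃ A, A = C * (3 + Pm ^ 2) := ⟨_, rfl⟩
  obtain ⟨Q, hQ⟩ : ∃ Q, Q = 50 * (n ^ 2 * B * (Pm ^ 2 + A + L * A + 1 + L)) := ⟨_, rfl⟩
  have hA0 : 0 ≤ A := by rw [hA]; positivity
  have hQ0 : 0 ≤ Q := by
    rw [hQ]
    positivity
  refine ⟨min 1 (θ / (Q + 1)), lt_min one_pos (by positivity), ?_⟩
  intro b H E l hb hbr hH hHr hE hl hlL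
  obtain ⟨r, hr⟩ : ∃ r, r = min 1 (θ / (Q + 1)) := ⟨_, rfl⟩
  rw [← hr] at hbr hHr
  have hr1 : r ≤ 1 := by rw [hr]; exact min_le_left _ _
  have hr2 : r * (Q + 1) ≤ θ := by
    have : r ≤ θ / (Q + 1) := by rw [hr]; exact min_le_right _ _
    rwa [le_div_iff₀ (by linarith)] at this
  have hb1 : b ≤ 1 := hbr.trans hr1
  have hH1 : H ≤ 1 := hHr.trans hr1
  have hr0 : 0 < r := hb.trans_le hbr
  have hN : b ^ (-(3 : ℝ)) = (b ^ 3)⁻¹ := by
    rw [Real.rpow_neg hb.le]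
    congr 1
    exact_mod_cast Real.rpow_natCast b 3
  obtain ⟨Y, hY⟩ : ∃ Y, Y = Yb n C E b H Pm := ⟨_, rfl⟩
  have hYb : Y * b ^ 2 ≤ A * (1 + E) := by
    rw [hY, hA]
    refine (Yb_le hn hC hb hb1 hH hH1 hE).trans (le_of_eq ?_)
    ring
  rw [hN, ← hY]
  have f1 : Pm ^ 2 / (b ^ 3)⁻¹ ≤ Pm ^ 2 * r * (1 + E) := by
    rw [div_inv_eq_mul]
    have h1 : b ^ 3 ≤ r := by
      calc b ^ 3 ≤ b ^ 1 := pow_le_pow_of_le_one hb.le hb1 (by norm_num)
        _ = b := pow_one b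
        _ ≤ r := hbr
    have h2 : Pm ^ 2 * b ^ 3 ≤ Pm ^ 2 * r := mul_le_mul_of_nonneg_left h1 (sq_nonneg _)
    have h3 : 0 ≤ Pm ^ 2 * r * E := by positivity
    linarith
  have f2 : Y / (b ^ 3)⁻¹ ≤ A * r * (1 + E) := by
    rw [div_inv_eq_mul]
    calc Y * b ^ 3 = Y * b ^ 2 * b := by ring
      _ ≤ A * (1 + E) * b := mul_le_mul_of_nonneg_right hYb hb.le
      _ ≤ A * (1 + E) * r := mul_le_mul_of_nonneg_left hbr (by positivity)
      _ = A * r * (1 + E) := by ring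
  have f3 : l * (Y * H) / ((b ^ 3)⁻¹ * b) ≤ L * A * r * (1 + E) := by
    have h1 : l * (Y * H) / ((b ^ 3)⁻¹ * b) = l * H * (Y * b ^ 2) := by
      field_simp
    rw [h1]
    calc l * H * (Y * b ^ 2) ≤ l * H * (A * (1 + E)) :=
          mul_le_mul_of_nonneg_left hYb (by positivity)
      _ ≤ L * r * (A * (1 + E)) := by
          apply mul_le_mul_of_nonneg_right _ (by positivity)
          exact mul_le_mul hlL hHr hH hL
      _ = L * A * r * (1 + E) := by ring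
  have f4 : (1 + l * H / b) * Real.sqrt (E / (b ^ 3)⁻¹) ≤ (1 + L) * r * (1 + E) := by
    rw [div_inv_eq_mul]
    have h1 : Real.sqrt (E * b ^ 3) ≤ (1 + E) * b := by
      apply Real.sqrt_le_iff.2
      refine ⟨by positivity, ?_⟩
      have h2 : b ^ 3 ≤ b ^ 2 := pow_le_pow_of_le_one hb.le hb1 (by norm_num)
      have h3 : E * b ^ 3 ≤ E * b ^ 2 := mul_le_mul_of_nonneg_left h2 hE
      have h4 : E * b ^ 2 ≤ (1 + E) ^ 2 * b ^ 2 := by
        apply mul_le_mul_of_nonneg_right _ (by positivity)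
        nlinarith
      rw [mul_pow]
      exact h3.trans h4
    have h5 : 0 ≤ 1 + l * H / b := by positivity
    calc (1 + l * H / b) * Real.sqrt (E * b ^ 3) ≤ (1 + l * H / b) * ((1 + E) * b) :=
          mul_le_mul_of_nonneg_left h1 h5
      _ = (b + l * H) * (1 + E) := by
          field_simp
      _ ≤ (r + L * r) * (1 + E) := by
          apply mul_le_mul_of_nonneg_right _ (by positivity)
          exact add_le_add hbr (mul_le_mul hlL hHr hH hL)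
      _ = (1 + L) * r * (1 + E) := by ring
  have hn0 : 0 ≤ n ^ 2 * B := by positivity
  calc 50 * (n ^ 2 * B * (Pm ^ 2 / (b ^ 3)⁻¹ + Y / (b ^ 3)⁻¹ + l * (Y * H) / ((b ^ 3)⁻¹ * b) +
        (1 + l * H / b) * Real.sqrt (E / (b ^ 3)⁻¹)))
      ≤ 50 * (n ^ 2 * B * (Pm ^ 2 * r * (1 + E) + A * r * (1 + E) + L * A * r * (1 + E) +
        (1 + L) * r * (1 + E))) := by
        apply mul_le_mul_of_nonneg_left _ (by norm_num)
        apply mul_le_mul_of_nonneg_left _ hn0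
        linarith
    _ = r * Q * (1 + E) := by
        rw [hQ]
        ring
    _ ≤ θ * (1 + E) := by
        apply mul_le_mul_of_nonneg_right _ (by linarith)
        nlinarith

end Pool.Agent.Q91.TF
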