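import Pool.Agent.Q81.TF.Stm

open Set MeasureTheory Filter Topology

namespace Pool.Agent.Q91.TF

open Pool.Agent.Q81.TF

/-- continuity of the primitive in the first variable on the rectangle -/
theorem prim_cOn {x0 x1 t1 t2 : ℝ} (hx : x0 < x1) (htt : t1 < t2) {K : ℝ × ℝ → ℝ}
    (cK : ContinuousOn K (Icc x0 x1 ×ˢ Icc t1 t2)) :
    ContinuousOn (fun z : ℝ × ℝ => ∫ y in x0..z.1, K (y, z.2)) (Icc x0 x1 ×ˢ Icc t1 t2) := by
  have h := prim_cont (x0 := x0) (clC hx htt cK)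
  apply h.continuousOn.congr
  rintro ⟨x, t⟩ ⟨hxm, htm⟩
  unfold prim
  simp only
  apply intervalIntegral.integral_congr
  intro y hy
  have hxm' : x0 ≤ x := hxm.1
  rw [uIcc_of_le hxm'] at hy
  simp only
  rw [cl_eq ⟨hy.1, hy.2.trans hxm.2⟩ htm]

/-- the derivative in time of the primitive -/
theorem intdt {x0 x1 t1 t2 : ℝ} {K Kt : ℝ × ℝ → ℝ}
    (cK : ContinuousOn K (Icc x0 x1 ×ˢ Icc t1 t2)) (cKt : ContinuousOn Kt (Icc x0 x1 ×ˢ Icc t1 t2))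
    (hd : ∀ x ∈ Icc x0 x1, ∀ t ∈ Ioo t1 t2, HasDerivAt (fun τ => K (x, τ)) (Kt (x, t)) t)
    {x t : ℝ} (hxm : x ∈ Icc x0 x1) (htm : t ∈ Ioo t1 t2) :
    HasDerivAt (fun τ => ∫ y in x0..x, K (y, τ)) (∫ y in x0..x, Kt (y, t)) t := by
  have htt : t1 < t2 := htm.1.trans htm.2
  rcases eq_or_lt_of_le hxm.1 with h | hc
  · rw [← h]
    simp only [intervalIntegral.integral_same]
    exact hasDerivAt_const t (0 : ℝ)
  have hsub : Icc x0 x ×ˢ Icc t1 t2 ⊆ Icc x0 x1 ×ˢ Icc t1 t2 :=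
    prod_mono (Icc_subset_Icc_right hxm.2) (Subset.refl _)
  have cw := clC hc htt (cKt.mono hsub)
  obtain ⟨P, hP⟩ : ∃ P : ℝ → ℝ, P = fun σ => ∫ y in x0..x, Kt (cl x0 x t1 t2 (y, σ)) := ⟨_, rfl⟩
  have cP : Continuous P := by
    rw [hP]
    apply intervalIntegral.continuous_parametric_intervalIntegral_of_continuous'
      (f := fun σ y => Kt (cl x0 x t1 t2 (y, σ)))
    exact cw.comp (by fun_prop)
  have hPe : ∀ σ ∈ Icc t1 t2, P σ = ∫ y in x0..x, Kt (y, σ) := by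
    intro σ hσ
    rw [hP]
    simp only
    apply intervalIntegral.integral_congr
    intro y hy
    rw [uIcc_of_le hc.le] at hy
    simp only
    rw [cl_eq hy hσ]
  have d1 : HasDerivAt (fun τ => ∫ σ in t1..τ, P σ) (P t) t :=
    (cP.integral_hasStrictDerivAt t1 t).hasDerivAt
  have d2 := d1.const_add (∫ y in x0..x, K (y, t1))
  rw [hPe t ⟨htm.1.le, htm.2.le⟩] at d2
  apply d2.congr_of_eventuallyEq
  filter_upwards [Ioo_mem_nhds htm.1 htm.2] with τ hτ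
  have hsub2 : Icc x0 x ×ˢ Icc t1 τ ⊆ Icc x0 x1 ×ˢ Icc t1 t2 :=
    prod_mono (Icc_subset_Icc_right hxm.2) (Icc_subset_Icc_right hτ.2.le)
  have h4 := diff_int hc hτ.1 (cK.mono hsub2) (cKt.mono hsub2)
    (fun y hy σ hσ => hd y ⟨hy.1, hy.2.trans hxm.2⟩ σ ⟨hσ.1, hσ.2.trans hτ.2⟩)
  have h5 : ∫ σ in t1..τ, P σ = ∫ σ in t1..τ, ∫ y in x0..x, Kt (y, σ) := by
    apply intervalIntegral.integral_congr
    intro σ hσ
    rw [uIcc_of_le hτ.1.le] at hσ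
    exact hPe σ ⟨hσ.1, hσ.2.trans hτ.2.le⟩
  show ∫ y in x0..x, K (y, τ) = (∫ y in x0..x, K (y, t1)) + ∫ σ in t1..τ, P σ
  rw [h5, ← h4]
  ring

variable {n x0 x1 t1 t2 : ℝ} {W D : Set (ℝ × ℝ)} {s : ℝ → ℝ} {g h1 h2 h3 ht : ℝ × ℝ → ℝ}
  {b : ℝ} {ζ ζ1 : ℝ → ℝ}

theorem kL_cont (F : Flow n x0 x1 t1 t2 W D s g h1 h3 ht) (hDW : D ⊆ W) (hb : 0 < b)
    (Z : ZCut b ζ ζ1) : ContinuousOn (kL n x0 x1 t1 t2 g ζ) (Icc x0 x1 ×ˢ Icc t1 t2) :=
  F.labCut (u := fun z => g z ^ (2 - n)) hb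
    (continuous_iff_continuousAt.2 fun x => (Z.d0 x).continuousAt)
    (fun v hv => (Z.lo v hv).1) (F.uD_cont hDW _)

theorem kLt_cont (F : Flow n x0 x1 t1 t2 W D s g h1 h3 ht) (hDW : D ⊆ W) (hb : 0 < b)
    (Z : ZCut b ζ ζ1) : ContinuousOn (kLt n x0 x1 t1 t2 g h3 ht ζ ζ1)
      (Icc x0 x1 ×ˢ Icc t1 t2) := by
  unfold kLt
  apply ContinuousOn.add
  · apply ContinuousOn.neg
    exact F.labCut hb Z.c1 (fun v hv => (Z.lo v hv).2)
      ((F.powCont hDW).mul (F.uD_cont hDW _))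
  · exact F.labCut hb (continuous_iff_continuousAt.2 fun x => (Z.d0 x).continuousAt)
      (fun v hv => (Z.lo v hv).1)
      (continuousOn_const.mul ((F.uD_cont hDW _).mul F.ht_cont))

theorem kL_dt (F : Flow n x0 x1 t1 t2 W D s g h1 h3 ht) (J : Jet D h1 h2 h3)
    (hDW : D ⊆ W) (hn : 3 ≤ n)
    (hfin : IntegrableOn (Fd n g h3) (D ∩ Ioc x0 x1 ×ˢ Ioc t1 t2)) (hb : 0 < b)
    (Z : ZCut b ζ ζ1) {x t : ℝ} (hx : x ∈ Icc x0 x1) (htt : t ∈ Ioo t1 t2) :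
    HasDerivAt (fun τ => kL n x0 x1 t1 t2 g ζ (x, τ)) (kLt n x0 x1 t1 t2 g h3 ht ζ ζ1 (x, t)) t :=
  F.labCut_dt J hDW hn hfin hb (ψ := ζ) (ψ1 := ζ1) Z.d0
      (fun v hv => (Z.lo v hv).1) (fun v hv => (Z.lo v hv).2)
      (u := fun z => g z ^ (2 - n)) (ut := fun z => (2 - n) * (g z ^ (1 - n) * ht z))
      (fun z hz => by
        have h1 := (F.d_t z hz).rpow_const (p := 2 - n) (Or.inl (F.g_pos z hz).ne')
        refine HasDerivAt.congr_deriv h1 ?_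
        have h2 : (2 - n - 1 : ℝ) = 1 - n := by ring
        rw [h2]
        ring) hx htt

theorem t_PSI : S_PSI := by
  intro n x0 x1 t1 t2 W D s g h1 h2 h3 ht S b B N ζ ζ1 Fr w w1 hb Z FC t' t'' h1' h12 h2' R hR hle
  have F := S.F
  have hDW := S.DW
  have cK := kL_cont F hDW hb Z
  have cKt := kLt_cont F hDW hb Z
  have cR := prim_cOn F.hx F.htt cK
  have cI := prim_cOn F.hx F.htt cKt
  have hsub : Icc x0 x1 ×ˢ Icc t' t'' ⊆ Icc x0 x1 ×ˢ Icc t1 t2 :=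
    prod_mono (Subset.refl _) (Icc_subset_Icc h1' h2')
  have cFr : Continuous Fr := continuous_iff_continuousAt.2 fun x => (FC.d0 x).continuousAt
  have cw : Continuous w := continuous_iff_continuousAt.2 fun x => (FC.d1 x).continuousAt
  have cRL : ContinuousOn (RL n x0 x1 t1 t2 g ζ) (Icc x0 x1 ×ˢ Icc t1 t2) := cR
  have c0 : ContinuousOn (fun z => 1 - Fr (RL n x0 x1 t1 t2 g ζ z)) (Icc x0 x1 ×ˢ Icc t' t'') :=
    continuousOn_const.sub (cFr.comp_continuousOn (cRL.mono hsub))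
  have c1 : ContinuousOn (fun z : ℝ × ℝ => w (RL n x0 x1 t1 t2 g ζ z) *
      ∫ y in x0..z.1, kLt n x0 x1 t1 t2 g h3 ht ζ ζ1 (y, z.2)) (Icc x0 x1 ×ˢ Icc t' t'') :=
    (cw.comp_continuousOn (cRL.mono hsub)).mul (cI.mono hsub)
  have hd := diff_int F.hx h12 c0 c1 (fun x hx t htt => by
    have e1 := intdt cK cKt (fun y hy σ hσ => kL_dt F S.J hDW S.hn S.fin hb Z hy hσ) hx
      ⟨h1'.trans_lt htt.1, htt.2.trans_le h2'⟩
    have e2 := ((FC.d0 (RL n x0 x1 t1 t2 g ζ (x, t))).comp t e1).const_sub 1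
    refine HasDerivAt.congr_deriv e2 ?_
    simp only
    ring)
  have e : Psi n x0 x1 t1 t2 g ζ Fr t'' - Psi n x0 x1 t1 t2 g ζ Fr t' =
      ∫ τ in t'..t'', ∫ x in x0..x1, w (RL n x0 x1 t1 t2 g ζ (x, τ)) *
        ∫ y in x0..x, kLt n x0 x1 t1 t2 g h3 ht ζ ζ1 (y, τ) := hd
  rw [e, intervalIntegral.integral_of_le h12.le]
  apply integral_mono_ae _ hR hle
  have := (slice_ii F.hx h12 c1)
  exact this.integrableOn_Icc.mono_set Ioc_subset_Icc_self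

end Pool.Agent.Q91.TF
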